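import Pool.Agent.X13.TT.Tri

/-!
# Non-negativity of the truncated theta series with triangular exponents

`F_k(q) = ∏_{i ≥ 1} (1 + q^i) ∑_{n ≥ 0} (-1)^{T_n} q^{T_{n+2k}}` has non-negative coefficients for all
`k ≥ 1`.

Idea: `∏ (1 + q^i) = 1/(q;q^2)_∞`, and already `∑_{n ≥ 0} (-1)^{T_n} q^{T_{n+2k}}` divided by
`(1-q)(1-q^3)(1-q^5)(1-q^7)` has non-negative coefficients: the coefficients of
`1/((1-q)(1-q^3)(1-q^5)(1-q^7))` are a cubic polynomial up to a bounded error (the parts are pairwise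
coprime), alternating sums of a cubic polynomial along the progression are evaluated exactly, and the
resulting main term beats the error for all `k` and `N ≥ 78`; for `N < 78` the coefficients are
computed.
-/

namespace Pool.Agent.Results.MP_1cbc82_co.AllCoefficientsNonneg

open PowerSeries Finset

/-- triangular numbers -/
def T (n : ℕ) : ℕ := n * (n + 1) / 2

/-- `∏_{i ≥ 1} (1 + q^i)`: the coefficient of `q^n` is that of the finite product over
`1 ≤ i ≤ n` (the later factors do not change it) -/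
noncomputable def prodOneAdd : ℤ⟦X⟧ :=
  PowerSeries.mk fun n => coeff n (∏ i ∈ Icc 1 n, (1 + (X : ℤ⟦X⟧) ^ i))

/-- `∑_{n ≥ 0} (-1)^{T_n} q^{T_{n+2k}}` (note `T_{n+2k} ≥ n`, so that only `n ≤ N` contribute to the
coefficient of `q^N`) -/
noncomputable def tail (k : ℕ) : ℤ⟦X⟧ :=
  PowerSeries.mk fun N => ∑ n ∈ range (N + 1), if T (n + 2 * k) = N then (-1) ^ T n else 0

/-- `F_k(q)` -/
noncomputable def F (k : ℕ) : ℤ⟦X⟧ := prodOneAdd * tail k

/-- every coefficient of `F_k(q)` is non-negative, for every `k ≥ 1` -/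
theorem result (k : ℕ) (hk : 1 ≤ k) (N : ℕ) : 0 ≤ coeff N (F k) := by
  have hG0 : ∀ i : ℕ, T (2 * i) = Pool.Agent.X13.TT.ta i := by
    intro i
    unfold T Pool.Agent.X13.TT.ta
    rw [show 2 * i * (2 * i + 1) = 2 * (i * (2 * i + 1)) by ring]
    omega
  have hG1 : ∀ i : ℕ, T (2 * i + 1) = Pool.Agent.X13.TT.tb i := by
    intro i
    unfold T Pool.Agent.X13.TT.tb
    rw [show (2 * i + 1) * (2 * i + 1 + 1) = 2 * ((i + 1) * (2 * i + 1)) by ring]
    omega
  have hT0 : ∀ i : ℕ, (-1 : ℤ) ^ T (2 * i) = (-1) ^ i := by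
    intro i
    rw [hG0, Pool.Agent.X13.TT.ta, show i * (2 * i + 1) = i + 2 * (i * i) by ring, pow_add,
      pow_mul]
    simp
  have hT1 : ∀ i : ℕ, (-1 : ℤ) ^ T (2 * i + 1) = -(-1) ^ i := by
    intro i
    rw [hG1, Pool.Agent.X13.TT.tb, show (i + 1) * (2 * i + 1) = i + 1 + 2 * (i * (i + 1)) by ring,
      pow_add, pow_mul]
    simp [pow_succ]
  have hge : ∀ j, j ≤ T j := by
    intro j
    rcases Nat.even_or_odd' j with ⟨i, rfl | rfl⟩
    · rw [hG0, Pool.Agent.X13.TT.ta]; nlinarith [Nat.zero_le i, mul_self_nonneg (i : ℤ),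
        Nat.le_mul_self i]
    · rw [hG1, Pool.Agent.X13.TT.tb]; nlinarith
  have htail : tail k = Pool.Agent.X13.TT.th Pool.Agent.X13.TT.ta Pool.Agent.X13.TT.tb k := by
    ext N
    rw [tail, coeff_mk, Pool.Agent.X13.TT.th, coeff_mk, Pool.Agent.X13.TT.thc]
    have h2 : ∑ j ∈ range (N + 1), (if T (j + 2 * k) = N then (-1 : ℤ) ^ T j else 0)
        = ∑ j ∈ range (2 * (N + 1)), (if T (j + 2 * k) = N then (-1 : ℤ) ^ T j else 0) := by
      refine sum_subset (range_subset_range.mpr (by omega)) fun j _ hj => ?_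
      rw [mem_range, not_lt] at hj
      have := hge (j + 2 * k)
      rw [if_neg (by omega)]
    have h3 : ∀ M : ℕ, ∑ j ∈ range (2 * M), (if T (j + 2 * k) = N then (-1 : ℤ) ^ T j else 0)
        = ∑ j ∈ range M, (-1) ^ j * ((if Pool.Agent.X13.TT.ta (k + j) = N then 1 else 0)
          - (if Pool.Agent.X13.TT.tb (k + j) = N then 1 else 0)) := by
      intro M
      induction M with
      | zero => simp
      | succ M ih =>
        rw [show 2 * (M + 1) = 2 * M + 1 + 1 by ring, sum_range_succ, sum_range_succ, ih,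
          sum_range_succ, hT0, hT1, show 2 * M + 2 * k = 2 * (k + M) by ring,
          show 2 * M + 1 + 2 * k = 2 * (k + M) + 1 by ring, hG0, hG1]
        split_ifs <;> ring
    rw [h2, h3]
  have hmain := Pool.Agent.X13.TT.nonneg_of_agree (fun i => i % 2 = 1)
    (Pool.Agent.X13.TT.th Pool.Agent.X13.TT.ta Pool.Agent.X13.TT.tb k) prodOneAdd
    Pool.Agent.X13.TT.agree_euler [1, 3, 5, 7] (by decide) (by decide)
    (Pool.Agent.X13.TT.tri_nonneg k hk)
  rw [F, htail, mul_comm]
  exact hmain N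

end Pool.Agent.Results.MP_1cbc82_co.AllCoefficientsNonneg
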